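import Pool.Agent.Lib.MP_c5d73d_lc.F.IfaceW

/-!
# MAV: Martin's axiom in `V^B`
-/

set_option autoImplicit false

universe u

open Cardinal

open scoped symmDiff

namespace Pool.Agent.Lib.MP_c5d73d_lc.F.H7

open Pool.Agent.Lib.MP_100a6c_lc
open BName
open H36 (nn om)

variable {B : Type u} [CompleteBooleanAlgebra B]

/-! ### Transitivity of `leCard` -/

theorem leCard_trans (x y z : BName B) :
    (VB B).leCard x y ⊓ (VB B).leCard y z ≤ (VB B).leCard x z := by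
  have hf0 : (VB B).leCard x y ⊓ (VB B).leCard y z ≤ (VB B).leCard x y := inf_le_left
  have hg0 : (VB B).leCard x y ⊓ (VB B).leCard y z ≤ (VB B).leCard y z := inf_le_right
  set Γ : B := (VB B).leCard x y ⊓ (VB B).leCard y z with hΓ
  have key : ∀ x y : BName B, Γ ≤ (VB B).leCard x y → ∃ f : BName B,
      (∀ b a a', Γ ⊓ ((VB B).rel f b a ⊓ (VB B).rel f b a') ≤ beq a a') ∧
      ∀ a, Γ ⊓ bmem a x ≤ ⨆ b, bmem b y ⊓ (VB B).rel f b a := by
    intro x y h
    unfold Str.leCard at h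
    obtain ⟨f, hf⟩ := exists_wit (((Ext.iInf fun b => Ext.iInf fun a => Ext.iInf fun a' =>
      ((ext_rel_fst b a).inf (ext_rel_fst b a')).himp (Ext.const _)).inf
      (Ext.iInf fun a => (Ext.const _).himp (Ext.iSup fun b => (Ext.const _).inf
        (ext_rel_fst b a))))) h
    refine ⟨f, fun b a a' => ?_, fun a => ?_⟩
    · have h4 : Γ ≤ (VB B).rel f b a ⊓ (VB B).rel f b a' ⇨ (VB B).eq a a' :=
        (hf.trans inf_le_left).trans (iInf_le_of_le _ (iInf_le_of_le _ (iInf_le _ _)))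
      rwa [le_himp_iff] at h4
    · exact iInf_himp_apply (hf.trans inf_le_right) a inf_le_left inf_le_right
  obtain ⟨f, hf1, hf2⟩ := key x y hf0
  obtain ⟨g, hg1, hg2⟩ := key y z hg0
  -- the composition
  let φ : BName B → BName B → B := fun c a => ⨆ b, (VB B).rel g c b ⊓ (VB B).rel f b a
  have hφl : ∀ a, Ext (fun c => φ c a) := fun a =>
    Ext.iSup fun b => (ext_rel_snd g b).inf (Ext.const _)
  have hφr : ∀ c, Ext (fun a => φ c a) := fun c =>
    Ext.iSup fun b => (Ext.const _).inf (ext_rel_trd f b)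
  let h : BName B := relFam (ι := z.ix × x.ix) (fun p => z.nm p.1) (fun p => x.nm p.2)
    (fun p => z.vl p.1 ⊓ x.vl p.2 ⊓ φ (z.nm p.1) (x.nm p.2))
  have hrel : ∀ c a, (VB B).rel h c a ≤ φ c a := by
    intro c a
    change (VB B).rel (relFam _ _ _) c a ≤ _
    rw [rel_relFam]
    refine iSup_le fun p => ?_
    have h1 : z.vl p.1 ⊓ x.vl p.2 ⊓ φ (z.nm p.1) (x.nm p.2) ⊓ (beq c (z.nm p.1) ⊓ beq a (x.nm p.2))
        ≤ φ c (x.nm p.2) :=
      (hφl (x.nm p.2)).of_le' (x := z.nm p.1) (inf_le_right.trans inf_le_left)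
        (inf_le_left.trans inf_le_right)
    exact (hφr c).of_le' (x := x.nm p.2) (inf_le_right.trans inf_le_right) h1
  refine le_iSup_of_le h (le_inf ?_ ?_)
  · refine le_iInf fun c => le_iInf fun a => le_iInf fun a' => ?_
    rw [le_himp_iff]
    refine (inf_le_inf_left _ (inf_le_inf (hrel c a) (hrel c a'))).trans ?_
    change Γ ⊓ ((⨆ b, (VB B).rel g c b ⊓ (VB B).rel f b a) ⊓
      (⨆ b, (VB B).rel g c b ⊓ (VB B).rel f b a')) ≤ beq a a'
    rw [iSup_inf_iSup, inf_iSup_eq]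
    refine iSup_le fun ⟨b, b'⟩ => ?_
    have e1 : Γ ⊓ (((VB B).rel g c b ⊓ (VB B).rel f b a) ⊓ ((VB B).rel g c b' ⊓ (VB B).rel f b' a'))
        ≤ beq b b' :=
      (le_inf inf_le_left (le_inf (inf_le_right.trans (inf_le_left.trans inf_le_left))
        (inf_le_right.trans (inf_le_right.trans inf_le_left)))).trans (hg1 c b b')
    have e2 : Γ ⊓ (((VB B).rel g c b ⊓ (VB B).rel f b a) ⊓ ((VB B).rel g c b' ⊓ (VB B).rel f b' a'))
        ≤ (VB B).rel f b a' :=
      (ext_rel_snd f a').of_le' (x := b') e1 (inf_le_right.trans (inf_le_right.trans inf_le_right))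
    exact (le_inf inf_le_left (le_inf (inf_le_right.trans (inf_le_left.trans inf_le_right))
      e2)).trans (hf1 b a a')
  · refine (le_iInf_mem (Ext.iSup fun b => (Ext.const _).inf (ext_rel_trd h b))).2 fun i => ?_
    have e1 : Γ ⊓ x.vl i ≤ ⨆ b, bmem b y ⊓ (VB B).rel f b (x.nm i) :=
      (inf_le_inf_left _ (vl_le_bmem x i)).trans (hf2 _)
    refine (le_inf le_rfl e1).trans ?_
    rw [inf_iSup_eq]
    refine iSup_le fun b => ?_
    have e2 : Γ ⊓ x.vl i ⊓ (bmem b y ⊓ (VB B).rel f b (x.nm i)) ≤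
        ⨆ c, bmem c z ⊓ (VB B).rel g c b :=
      (le_inf (inf_le_left.trans inf_le_left) (inf_le_right.trans inf_le_left)).trans (hg2 b)
    rw [iSup_mem (ext_rel_snd g b)] at e2
    refine (le_inf le_rfl e2).trans ?_
    rw [inf_iSup_eq]
    refine iSup_le fun j => ?_
    refine le_iSup_of_le (z.nm j) (le_inf ?_ ?_)
    · exact (inf_le_right.trans inf_le_left).trans (vl_le_bmem z j)
    · change _ ≤ (VB B).rel (relFam _ _ _) _ _
      rw [rel_relFam]
      refine le_iSup_of_le (j, i) (le_inf (le_inf (le_inf ?_ ?_) ?_) (le_inf ?_ ?_))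
      · exact inf_le_right.trans inf_le_left
      · exact inf_le_left.trans (inf_le_left.trans inf_le_right)
      · exact le_iSup_of_le b (le_inf (inf_le_right.trans inf_le_right)
          (inf_le_left.trans (inf_le_right.trans inf_le_right)))
      · rw [beq_refl]; exact le_top
      · rw [beq_refl]; exact le_top

/-! ### The main argument -/

/-- the core: the family `D` of dense sets is enumerated by a small type -/
theorem core (hT : TcccvStatement.{u}) (hC : ClfStatement.{u}) (κ : Cardinal.{u}) (hκ : ℵ₀ < κ)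
    (hcc : CCov ℵ₀ B) (hma : TMA κ B) (P r D : BName B) (Γ : B) (Λ : Type u) (hΛ : #Λ < κ)
    (d : Λ → BName B) (hd : Enum Γ D d) (hpre : Γ ≤ isPreo (VB B) P r)
    (hccc : Γ ≤ isCCC (VB B) P r)
    (hden : Γ ≤ ⨅ d, bmem d D ⇨ isDense (VB B) P r d) :
    Γ ≤ ⨆ G, isFilt (VB B) P r G ⊓ ⨅ d, bmem d D ⇨ ⨆ p, bmem p G ⊓ bmem p d := by
  obtain ⟨hTm, p, hp1, hp2, hp3⟩ := hC B Γ P r D Λ d hpre hden
  have hrefl : ∀ x, Γ ⊓ bmem x P ≤ (VB B).rel r x x := fun x =>
    iInf_himp_apply (hpre.trans (inf_le_left.trans inf_le_right)) x inf_le_left inf_le_right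
  have htrans : ∀ x y z, Γ ⊓ (bmem x P ⊓ bmem y P ⊓ bmem z P ⊓ (VB B).rel r x y ⊓ (VB B).rel r y z)
      ≤ (VB B).rel r x z := by
    intro x y z
    have h : Γ ≤ bmem x P ⊓ bmem y P ⊓ bmem z P ⊓ (VB B).rel r x y ⊓ (VB B).rel r y z ⇨
        (VB B).rel r x z :=
      (hpre.trans inf_le_right).trans (iInf_le_of_le x (iInf_le_of_le y (iInf_le _ z)))
    rwa [le_himp_iff] at h
  have hpr : ∀ q, Γ ≤ (VB B).rel r (p q) (p q) := fun q => (le_inf le_rfl (hp1 q)).trans (hrefl _)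
  have hpp : ∀ q q', Γ ⊓ comp (VB B) P r (p q) (p q') ≤
      ⨆ s : Tm Λ, (VB B).rel r (p s) (p q) ⊓ (VB B).rel r (p s) (p q') := fun q q' =>
    (hp3 q q').trans (le_iSup (fun s => (VB B).rel r (p s) (p q) ⊓ (VB B).rel r (p s) (p q'))
      (Tm.lb q q'))
  have htccc := hT B hcc Γ P r (Tm Λ) p hp1 hpr hccc hpp
  set le : Tm Λ → Tm Λ → B := fun q q' => (VB B).rel r (p q) (p q') ⊔ Γᶜ with hle
  have : Nonempty (Tm Λ) := ⟨Tm.root⟩
  have hle1 : ∀ q, le q q = ⊤ := by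
    intro q
    refine top_le_iff.1 ?_
    change ⊤ ≤ (VB B).rel r (p q) (p q) ⊔ Γᶜ
    rw [← sup_compl_eq_top (x := Γ)]
    exact sup_le_sup_right (hpr q) _
  have hleΓ : ∀ q q', Γ ⊓ le q q' ≤ (VB B).rel r (p q) (p q') := by
    intro q q'
    change Γ ⊓ ((VB B).rel r (p q) (p q') ⊔ Γᶜ) ≤ _
    rw [inf_sup_left, inf_compl_self, sup_bot_eq]
    exact inf_le_right
  have hle2 : ∀ s t v, le s t ⊓ le t v ≤ le s v := by
    intro s t v
    change _ ≤ (VB B).rel r (p s) (p v) ⊔ Γᶜ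
    have h1 : Γ ⊓ (le s t ⊓ le t v) ≤ (VB B).rel r (p s) (p v) := by
      refine le_trans (le_inf inf_le_left (le_inf (le_inf (le_inf (le_inf ?_ ?_) ?_) ?_) ?_))
        (htrans (p s) (p t) (p v))
      · exact inf_le_left.trans (hp1 s)
      · exact inf_le_left.trans (hp1 t)
      · exact inf_le_left.trans (hp1 v)
      · exact (le_inf inf_le_left (inf_le_right.trans inf_le_left)).trans (hleΓ s t)
      · exact (le_inf inf_le_left (inf_le_right.trans inf_le_right)).trans (hleΓ t v)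
    calc le s t ⊓ le t v = (Γ ⊔ Γᶜ) ⊓ (le s t ⊓ le t v) := by rw [sup_compl_eq_top, top_inf_eq]
      _ = Γ ⊓ (le s t ⊓ le t v) ⊔ Γᶜ ⊓ (le s t ⊓ le t v) := by rw [inf_sup_right]
      _ ≤ (VB B).rel r (p s) (p v) ⊔ Γᶜ := sup_le_sup h1 inf_le_left
  have hden' : ∀ (l : Λ) (t : Tm Λ),
      ⨆ q, (bmem (p q) (d l) ⊔ (bmem (d l) D)ᶜ ⊔ Γᶜ) ⊓ le q t = ⊤ := by
    intro l t
    refine top_le_iff.1 ?_
    have h1 : Γ ⊓ bmem (d l) D ≤ ⨆ q, (bmem (p q) (d l) ⊔ (bmem (d l) D)ᶜ ⊔ Γᶜ) ⊓ le q t := by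
      refine le_iSup_of_le (Tm.ext l t) ((hp2 l t).trans (le_inf ?_ ?_))
      · exact inf_le_left.trans (le_sup_left.trans le_sup_left)
      · exact inf_le_right.trans le_sup_left
    have h2 : (Γ ⊓ bmem (d l) D)ᶜ ≤ ⨆ q, (bmem (p q) (d l) ⊔ (bmem (d l) D)ᶜ ⊔ Γᶜ) ⊓ le q t := by
      refine le_iSup_of_le t (le_inf ?_ ?_)
      · rw [compl_inf, sup_comm]
        exact sup_le_sup_right le_sup_right _
      · rw [hle1]; exact le_top
    rw [← sup_compl_eq_top (x := Γ ⊓ bmem (d l) D)]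
    exact sup_le h1 h2
  obtain ⟨G, hG1, hG2, hG3, hG4⟩ := hma (Tm Λ) le (hTm κ hκ hΛ) hle1 hle2 htccc Λ
    (fun l q => bmem (p q) (d l) ⊔ (bmem (d l) D)ᶜ ⊔ Γᶜ) hΛ hden'
  -- the filter
  let φ : BName B → B := fun x => ⨆ t, G t ⊓ (VB B).rel r (p t) x
  have hφ : Ext φ := Ext.iSup fun t => (Ext.const _).inf (ext_rel_trd r (p t))
  have hmem : ∀ z, bmem z (sepn P φ) = bmem z P ⊓ φ z := fun z => mem_sepn hφ P z
  have hself : ∀ t, Γ ⊓ G t ≤ bmem (p t) (sepn P φ) := by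
    intro t
    rw [hmem]
    refine le_inf (inf_le_left.trans (hp1 t)) (le_iSup_of_le t (le_inf inf_le_right ?_))
    exact inf_le_left.trans (hpr t)
  refine le_iSup_of_le (sepn P φ) (le_inf (le_inf (le_inf (le_inf ?_ ?_) ?_) ?_) ?_)
  · rw [sepn_sub]; exact le_top
  · -- nonempty
    have h1 : Γ ≤ ⨆ t, Γ ⊓ G t := by
      rw [← inf_iSup_eq, hG3, inf_top_eq]
    refine h1.trans (iSup_le fun t => le_iSup_of_le (p t) (hself t))
  · -- upward closed
    refine le_iInf fun x => le_iInf fun y => ?_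
    rw [le_himp_iff]
    change Γ ⊓ (bmem x (sepn P φ) ⊓ bmem y P ⊓ (VB B).rel r x y) ≤ bmem y (sepn P φ)
    rw [hmem, hmem]
    refine le_inf (inf_le_right.trans (inf_le_left.trans inf_le_right)) ?_
    have h1 : Γ ⊓ (bmem x P ⊓ φ x ⊓ bmem y P ⊓ (VB B).rel r x y) ≤
        ⨆ t, G t ⊓ (VB B).rel r (p t) x :=
      inf_le_right.trans (inf_le_left.trans (inf_le_left.trans inf_le_right))
    refine (le_inf le_rfl h1).trans ?_
    rw [inf_iSup_eq]
    refine iSup_mono fun t => le_inf (inf_le_right.trans inf_le_left) ?_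
    refine le_trans (le_inf ?_ (le_inf (le_inf (le_inf (le_inf ?_ ?_) ?_) ?_) ?_))
      (htrans (p t) x y)
    · exact inf_le_left.trans inf_le_left
    · exact (inf_le_left.trans inf_le_left).trans (hp1 t)
    · exact inf_le_left.trans (inf_le_right.trans (inf_le_left.trans (inf_le_left.trans inf_le_left)))
    · exact inf_le_left.trans (inf_le_right.trans (inf_le_left.trans inf_le_right))
    · exact inf_le_right.trans inf_le_right
    · exact inf_le_left.trans (inf_le_right.trans inf_le_right)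
  · -- directed
    refine le_iInf fun x => le_iInf fun y => ?_
    rw [le_himp_iff]
    change Γ ⊓ (bmem x (sepn P φ) ⊓ bmem y (sepn P φ)) ≤
      ⨆ s, bmem s (sepn P φ) ⊓ (VB B).rel r s x ⊓ (VB B).rel r s y
    rw [hmem x, hmem y]
    set Δ : B := Γ ⊓ (bmem x P ⊓ φ x ⊓ (bmem y P ⊓ φ y)) with hΔ
    have dΓ : Δ ≤ Γ := inf_le_left
    have dx : Δ ≤ bmem x P := inf_le_right.trans (inf_le_left.trans inf_le_left)
    have dy : Δ ≤ bmem y P := inf_le_right.trans (inf_le_right.trans inf_le_left)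
    have fx : Δ ≤ ⨆ t, G t ⊓ (VB B).rel r (p t) x :=
      inf_le_right.trans (inf_le_left.trans inf_le_right)
    have fy : Δ ≤ ⨆ t, G t ⊓ (VB B).rel r (p t) y :=
      inf_le_right.trans (inf_le_right.trans inf_le_right)
    refine (le_inf le_rfl (le_inf fx fy)).trans ?_
    rw [iSup_inf_iSup, inf_iSup_eq]
    refine iSup_le fun ⟨t, t'⟩ => ?_
    set Ξ : B := Δ ⊓ (G t ⊓ (VB B).rel r (p t) x ⊓ (G t' ⊓ (VB B).rel r (p t') y)) with hΞ
    have xD : Ξ ≤ Δ := inf_le_left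
    have xt : Ξ ≤ G t := inf_le_right.trans (inf_le_left.trans inf_le_left)
    have xx : Ξ ≤ (VB B).rel r (p t) x := inf_le_right.trans (inf_le_left.trans inf_le_right)
    have xt' : Ξ ≤ G t' := inf_le_right.trans (inf_le_right.trans inf_le_left)
    have xy : Ξ ≤ (VB B).rel r (p t') y := inf_le_right.trans (inf_le_right.trans inf_le_right)
    have h2 : Ξ ≤ ⨆ s, G s ⊓ le s t ⊓ le s t' := (le_inf xt xt').trans (hG2 t t')
    refine (le_inf le_rfl h2).trans ?_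
    rw [inf_iSup_eq]
    refine iSup_le fun s => le_iSup_of_le (p s) ?_
    have yX : Ξ ⊓ (G s ⊓ le s t ⊓ le s t') ≤ Ξ := inf_le_left
    have yΓ : Ξ ⊓ (G s ⊓ le s t ⊓ le s t') ≤ Γ := yX.trans (xD.trans dΓ)
    have yG : Ξ ⊓ (G s ⊓ le s t ⊓ le s t') ≤ G s :=
      inf_le_right.trans (inf_le_left.trans inf_le_left)
    have y1 : Ξ ⊓ (G s ⊓ le s t ⊓ le s t') ≤ (VB B).rel r (p s) (p t) :=
      (le_inf yΓ (inf_le_right.trans (inf_le_left.trans inf_le_right))).trans (hleΓ s t)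
    have y2 : Ξ ⊓ (G s ⊓ le s t ⊓ le s t') ≤ (VB B).rel r (p s) (p t') :=
      (le_inf yΓ (inf_le_right.trans inf_le_right)).trans (hleΓ s t')
    refine le_inf (le_inf ?_ ?_) ?_
    · exact (le_inf yΓ yG).trans (hself s)
    · exact (le_inf yΓ (le_inf (le_inf (le_inf (le_inf (yΓ.trans (hp1 s)) (yΓ.trans (hp1 t)))
        (yX.trans (xD.trans dx))) y1) (yX.trans xx))).trans (htrans (p s) (p t) x)
    · exact (le_inf yΓ (le_inf (le_inf (le_inf (le_inf (yΓ.trans (hp1 s)) (yΓ.trans (hp1 t')))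
        (yX.trans (xD.trans dy))) y2) (yX.trans xy))).trans (htrans (p s) (p t') y)
  · -- the dense sets
    refine le_iInf fun z => ?_
    rw [le_himp_iff]
    change Γ ⊓ bmem z D ≤ ⨆ x, bmem x (sepn P φ) ⊓ bmem x z
    refine (le_inf le_rfl (hd z)).trans ?_
    rw [inf_iSup_eq]
    refine iSup_le fun l => ?_
    have h1 : Γ ⊓ bmem z D ⊓ beq z (d l) ≤ ⨆ q, G q ⊓ (bmem (p q) (d l) ⊔ (bmem (d l) D)ᶜ ⊔ Γᶜ) := by
      rw [hG4 l]; exact le_top
    refine (le_inf le_rfl h1).trans ?_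
    rw [inf_iSup_eq]
    refine iSup_le fun q => le_iSup_of_le (p q) ?_
    set Δ : B := Γ ⊓ bmem z D ⊓ beq z (d l) ⊓
      (G q ⊓ (bmem (p q) (d l) ⊔ (bmem (d l) D)ᶜ ⊔ Γᶜ)) with hΔ
    have dΓ : Δ ≤ Γ := inf_le_left.trans (inf_le_left.trans inf_le_left)
    have dz : Δ ≤ bmem z D := inf_le_left.trans (inf_le_left.trans inf_le_right)
    have de : Δ ≤ beq z (d l) := inf_le_left.trans inf_le_right
    have dG : Δ ≤ G q := inf_le_right.trans inf_le_left
    have dl : Δ ≤ bmem (d l) D := (ext_mem_left D).of_le de dz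
    have d3 : Δ ≤ bmem (p q) (d l) ⊔ (bmem (d l) D)ᶜ ⊔ Γᶜ := inf_le_right.trans inf_le_right
    have d4 : Δ ≤ bmem (p q) (d l) := by
      have h5 : Δ ≤ (bmem (p q) (d l) ⊔ (bmem (d l) D)ᶜ ⊔ Γᶜ) ⊓ (bmem (d l) D ⊓ Γ) :=
        le_inf d3 (le_inf dl dΓ)
      refine h5.trans ?_
      rw [inf_sup_right, inf_sup_right]
      refine sup_le (sup_le inf_le_left ?_) ?_
      · rw [← inf_assoc, compl_inf_self, bot_inf_eq]; exact bot_le
      · rw [inf_comm (bmem (d l) D), ← inf_assoc, compl_inf_self, bot_inf_eq]; exact bot_le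
    exact le_inf ((le_inf dΓ dG).trans (hself q)) ((ext_mem_right (p q)).of_le' de d4)

theorem mav (hRe : RealsStatement.{u}) (hCm : CmpStatement.{u}) (hT : TcccvStatement.{u})
    (hC : ClfStatement.{u}) : MavStatement.{u} := by
  intro B _ κ hκ hcc hma hR
  refine top_le_iff.1 ?_
  refine le_iInf fun P => le_iInf fun r => le_iInf fun D => le_iInf fun w => le_iInf fun c => ?_
  rw [le_himp_iff, top_inf_eq]
  change isPreo (VB B) P r ⊓ isCCC (VB B) P r ⊓ (⨅ d, bmem d D ⇨ isDense (VB B) P r d) ⊓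
      isOm (VB B) w ⊓ isPow (VB B) c w ⊓ ((VB B).leCard c D)ᶜ ≤
      ⨆ G, isFilt (VB B) P r G ⊓ ⨅ d, bmem d D ⇨ ⨆ p, bmem p G ⊓ bmem p d
  set Γ : B := isPreo (VB B) P r ⊓ isCCC (VB B) P r ⊓ (⨅ d, bmem d D ⇨ isDense (VB B) P r d) ⊓
      isOm (VB B) w ⊓ isPow (VB B) c w ⊓ ((VB B).leCard c D)ᶜ with hΓ
  have g1 : Γ ≤ isPreo (VB B) P r :=
    inf_le_left.trans (inf_le_left.trans (inf_le_left.trans (inf_le_left.trans inf_le_left)))
  have g2 : Γ ≤ isCCC (VB B) P r :=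
    inf_le_left.trans (inf_le_left.trans (inf_le_left.trans (inf_le_left.trans inf_le_right)))
  have g3 : Γ ≤ ⨅ d, bmem d D ⇨ isDense (VB B) P r d :=
    inf_le_left.trans (inf_le_left.trans (inf_le_left.trans inf_le_right))
  have g4 : Γ ≤ isOm (VB B) w := inf_le_left.trans (inf_le_left.trans inf_le_right)
  have g5 : Γ ≤ isPow (VB B) c w := inf_le_left.trans inf_le_right
  have g6 : Γ ≤ ((VB B).leCard c D)ᶜ := inf_le_right
  obtain ⟨_, _, _, _, _, hOm, hPow⟩ := hRe B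
  rw [hOm] at g4
  have hext : Ext (fun x : BName B => isPow (VB B) c x) :=
    Ext.iInf fun z => (Ext.const _).bihimp (ext_sub_right z)
  have g7 : Γ ≤ beq c Pw := by
    rw [← hPow]
    exact hext.of_le g4 g5
  have g8 : Γ ≤ ((VB B).leCard Pw D)ᶜ := (ext_leCard_left D).compl.of_le g7 g6
  -- the cardinality of the power set
  have g9 : (⊤ : B) ≤ (VB B).leCard Pw (check κ.ord.toZFSet) := by
    refine le_leCard_of_enum (Y := Rl B) (t := rn) κ hR fun z => ?_
    refine inf_le_right.trans ?_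
    unfold Pw
    rw [mem_mk]
    exact iSup_mono fun a => inf_le_right
  have g10 : Γ ≤ ((VB B).leCard (check κ.ord.toZFSet) D)ᶜ := by
    refine g8.trans (compl_le_compl ?_)
    exact (le_inf (le_top.trans g9) le_rfl).trans (leCard_trans _ _ _)
  have g11 := (g10.trans (hCm B κ D hκ.le))
  refine (le_inf le_rfl g11).trans ?_
  rw [inf_iSup_eq]
  refine iSup_le fun γ => ?_
  rw [inf_iSup_eq]
  refine iSup_le fun hγ => ?_
  set Δ : B := Γ ⊓ (VB B).leCard D (check γ.toZFSet) with hΔ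
  have dΓ : Δ ≤ Γ := inf_le_left
  obtain ⟨d, hd⟩ := exists_enum_of_le_leCard (Γ := Δ) (x := D) γ inf_le_right
  have hΛ : #γ.ToType < κ := by
    rw [mk_toType]
    exact Cardinal.lt_ord.1 hγ
  exact core hT hC κ hκ hcc hma P r D Δ γ.ToType hΛ d hd (dΓ.trans g1) (dΓ.trans g2) (dΓ.trans g3)

end Pool.Agent.Lib.MP_c5d73d_lc.F.H7
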